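import Pool.Agent.Run7.h520.LW.I2

/-!
# Piece GAMMA
-/

set_option autoImplicit false
set_option linter.all false

namespace Run7.h540.LW
open Classical
open Run7.h520.LW

theorem map_inj_on {f : ℕ → ℕ} {S : Finset ℕ} (hf : ∀ x ∈ S, ∀ y ∈ S, f x = f y → x = y) :
    ∀ (l l' : List ℕ), (∀ x ∈ l, x ∈ S) → (∀ x ∈ l', x ∈ S) → l.map f = l'.map f → l = l'
  | [], [], _, _, _ => rfl
  | [], b :: l', _, _, h => by simp at h
  | a :: l, [], _, _, h => by simp at h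
  | a :: l, b :: l', h1, h2, h => by
    simp only [List.map_cons, List.cons.injEq] at h
    rw [hf a (h1 a (by simp)) b (h2 b (by simp)) h.1,
      map_inj_on hf l l' (fun x hx => h1 x (by simp [hx])) (fun x hx => h2 x (by simp [hx])) h.2]

section

variable {M : Str ℕ} {Ω : Set ℕ} {b0 h : ℕ} {T U Q B A P W D XD XU : Finset ℕ}
  {σ : ℕ → ℕ → ℕ} {τ : ℕ → ℕ} {lp : ℕ → ℕ × List ℕ}

theorem cfg_QU (H : Cfg M Ω b0 h T U Q B A P W D σ τ lp) : Q ⊆ U := by
  rw [← H.UB]; exact Finset.inter_subset_left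
theorem cfg_QB (H : Cfg M Ω b0 h T U Q B A P W D σ τ lp) : Q ⊆ B := by
  rw [← H.UB]; exact Finset.inter_subset_right
theorem cfg_QP (H : Cfg M Ω b0 h T U Q B A P W D σ τ lp) : Q ⊆ P := by
  rw [← H.UP]; exact Finset.inter_subset_right
theorem cfg_σQ (H : Cfg M Ω b0 h T U Q B A P W D σ τ lp) {t : ℕ} (ht : t ∈ T) {x : ℕ}
    (hx : x ∈ Q) : σ t x = τ x := H.σP t ht x (cfg_QP H hx)
theorem cfg_τinj (H : Cfg M Ω b0 h T U Q B A P W D σ τ lp) :
    ∀ x ∈ P, ∀ y ∈ P, τ x = τ y → x = y := by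
  obtain ⟨t, ht⟩ := H.ne
  intro x hx y hy hxy
  rw [← H.σP t ht x hx, ← H.σP t ht y hy] at hxy
  exact (H.emb t ht).inj x (H.PW hx) y (H.PW hy) hxy

/-- the transported line -/
noncomputable def tm (τ : ℕ → ℕ) (l : ℕ × List ℕ) : ℕ × List ℕ := (l.1, l.2.map τ)

theorem mis_mem {l : ℕ × List ℕ} {X : Finset ℕ} {i : ℕ} (hi : ∃ x ∈ (pre i l).2, x ∉ X) :
    ∃ x ∈ (pre (mis l X) l).2, x ∉ X := Nat.sInf_mem (s := {i | ∃ x ∈ (pre i l).2, x ∉ X}) ⟨i, hi⟩

theorem mis_le {l : ℕ × List ℕ} {X : Finset ℕ} {i : ℕ} (hi : ∃ x ∈ (pre i l).2, x ∉ X) :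
    mis l X ≤ i := Nat.sInf_le (s := {i | ∃ x ∈ (pre i l).2, x ∉ X}) hi

theorem small_line (H : Cfg M Ω b0 h T U Q B A P W D σ τ lp) (F : Fit M Ω U Q D τ XD XU)
    (hc : XD.card < g h) {l : ℕ × List ℕ} (hl : l.2.length = g l.1) (hn : l.2.Nodup)
    (hh : h < l.1) (hQ : ∀ i < l.1, ∀ x ∈ (pre i l).2, x ∈ Q) :
    ∃ x ∈ (pre h l).2, x ∉ XU := by
  by_contra hcon
  push Not at hcon
  have hlen : (pre h l).2.length = g h := take_length hl hh.le
  have hnd : (pre h l).2.Nodup := hn.sublist (List.take_sublist _ _)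
  have h1 : ((pre h l).2.toFinset.image τ) ⊆ XD := by
    intro y hy
    rw [Finset.mem_image] at hy
    obtain ⟨x, hx, rfl⟩ := hy
    rw [List.mem_toFinset] at hx
    exact (F.fit x (hQ h hh x hx)).1 (hcon x hx)
  have h2 : ((pre h l).2.toFinset.image τ).card = g h := by
    rw [Finset.card_image_of_injOn, List.toFinset_card_of_nodup hnd, hlen]
    intro x hx y hy hxy
    rw [Finset.mem_coe, List.mem_toFinset] at hx hy
    exact cfg_τinj H x (cfg_QP H (hQ h hh x hx)) y (cfg_QP H (hQ h hh y hy)) hxy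
  have h3 := Finset.card_le_card h1
  omega

/-- what we know about a new edge -/
theorem new_edge (H : Cfg M Ω b0 h T U Q B A P W D σ τ lp) (F : Fit M Ω U Q D τ XD XU)
    (hc : XD.card < g h) {s x p : ℕ} (hs : s ∈ T) (hx : x ∈ A ∩ B) (hxU : x ∉ U)
    (hp : p ∈ A ∩ U) (hpB : p ∉ B) (hR : M.R p x) :
    (∃ z ∈ (pre (mis (lp p) XU) (lp p)).2, z ∉ XU) ∧
    (∀ z ∈ (pre (mis (lp p) XU) (lp p)).2, z ∈ Q) ∧
    M.On p (pre (mis (lp p) XU) (lp p)) ∧ M.On (σ s x) (tm τ (pre (mis (lp p) XU) (lp p))) := by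
  obtain ⟨h1, h2, h3, h4, h5, h6⟩ := H.lp_ p hp hpB x hx hxU hR
  have h7 := small_line H F hc h2.2.1 h2.2.2.1 h1 h6
  have h8 := mis_le h7
  have h9 := mis_mem h7
  have h10 : mis (lp p) XU < (lp p).1 := lt_of_le_of_lt h8 h1
  refine ⟨h9, h6 _ h10, h2.pre h10.le, ?_⟩
  have h11 := h3.pre h10.le
  have hxW : x ∈ W := H.BW (Finset.mem_inter.1 hx).2
  have hlW : ∀ y ∈ (pre (mis (lp p) XU) (lp p)).2, y ∈ W :=
    fun y hy => H.BW (cfg_QB H (h6 _ h10 y hy))
  have h12 := ((H.emb s hs).on x hxW _ hlW).2 h11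
  have h13 : (pre (mis (lp p) XU) (lp p)).2.map (σ s) = (pre (mis (lp p) XU) (lp p)).2.map τ :=
    List.map_congr_left fun y hy => cfg_σQ H hs (h6 _ h10 y hy)
  rw [h13] at h12
  exact h12

theorem Nw_small (j : ℕ) : 2 * (N j * w j) ≤ a j / 8 := by
  have h1 := N_small j
  have h2 := w_le j
  have h3 := a_ge j
  have h4 := q_pos j
  have h5 := w_pos j
  have h6 : (0 : ℝ) ≤ N j := Nat.cast_nonneg _
  have h7 : (N j : ℝ) * w j ≤ N j * (2 * q (j + 1)) := mul_le_mul_of_nonneg_left h2 h6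
  nlinarith

/-- the edges to vertices outside `B'` -/
theorem cost1 (H : Cfg M Ω b0 h T U Q B A P W D σ τ lp) (F : Fit M Ω U Q D τ XD XU)
    (hc : XD.card < g h) {t : ℕ} (ht : t ∈ T) :
    2 * ∑ e ∈ ((XD ×ˢ XU).filter (fun e => nE M T U B A σ e.1 e.2)).filter
      (fun e => e.1 ∉ B.image (σ t)), w (mis (lp e.2) XU) ≤
      (∑ p ∈ M.nic XD (B.image (σ t)), a p.2.1) / 8 := by
  set E1 := ((XD ×ˢ XU).filter (fun e => nE M T U B A σ e.1 e.2)).filter
      (fun e => e.1 ∉ B.image (σ t)) with hE1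
  let φ : ℕ × ℕ → ℕ × (ℕ × List ℕ) := fun e => (e.1, tm τ (pre (mis (lp e.2) XU) (lp e.2)))
  have hmaps : ∀ e ∈ E1, φ e ∈ M.nic XD (B.image (σ t)) := by
    intro e he
    rw [hE1, Finset.mem_filter, Finset.mem_filter, Finset.mem_product] at he
    obtain ⟨⟨⟨h1, h2⟩, s, hs, x, hx, hxU, hp, hpB, hR, hsx⟩, hB'⟩ := he
    obtain ⟨h3, h4, h5, h6⟩ := new_edge H F hc hs hx hxU hp hpB hR
    rw [hsx] at h6
    unfold Str.nic
    rw [Finset.mem_filter, Str.mem_ic, Str.mem_ic, Str.mem_ic]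
    have h7 : ∀ y ∈ (tm τ (pre (mis (lp e.2) XU) (lp e.2))).2, y ∈ B.image (σ t) := by
      intro y hy
      obtain ⟨z, hz, rfl⟩ := List.mem_map.1 hy
      rw [← cfg_σQ H ht (h4 z hz)]
      exact Finset.mem_image_of_mem _ (cfg_QB H (h4 z hz))
    refine ⟨⟨Finset.mem_union_left _ h1, h6.isLn fun y hy => Finset.mem_union_right _ (h7 y hy), h6⟩,
      fun hcon => ?_, fun hcon => hB' hcon.1⟩
    obtain ⟨z, hz, hzU⟩ := h3
    have h8 := (mem_lin.1 hcon.2.1).2.2 (τ z) (List.mem_map.2 ⟨z, hz, rfl⟩)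
    exact hzU ((F.fit z (h4 z hz)).2 h8)
  have hfib := Finset.sum_fiberwise_of_maps_to (s := E1) (t := M.nic XD (B.image (σ t))) (g := φ)
    hmaps (fun e => w (mis (lp e.2) XU))
  rw [← hfib, Finset.mul_sum, Finset.sum_div]
  refine Finset.sum_le_sum fun c hcc => ?_
  have hterm : ∀ e ∈ E1.filter (fun e => φ e = c), w (mis (lp e.2) XU) = w c.2.1 := by
    intro e he
    rw [Finset.mem_filter] at he
    rw [← he.2]
    rfl
  rw [Finset.sum_congr rfl hterm, Finset.sum_const, nsmul_eq_mul]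
  have hcard : (E1.filter (fun e => φ e = c)).card ≤ N c.2.1 := by
    rcases (E1.filter (fun e => φ e = c)).eq_empty_or_nonempty with h0 | ⟨e0, he0⟩
    · rw [h0]; simp
    · rw [Finset.mem_filter, hE1, Finset.mem_filter, Finset.mem_filter, Finset.mem_product] at he0
      obtain ⟨⟨⟨⟨h1, h2⟩, s, hs, x, hx, hxU, hp, hpB, hR, hsx⟩, hB'⟩, hφ⟩ := he0
      obtain ⟨h3, h4, h5, h6⟩ := new_edge H F hc hs hx hxU hp hpB hR
      have h8 : (M.pts (pre (mis (lp e0.2) XU) (lp e0.2)) XU).card < N (mis (lp e0.2) XU) :=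
        F.pU.pts_lt (fun y hy => H.cU.sub (Finset.mem_coe.2 (cfg_QU H (h4 y hy)))) h3
      have h9 : c.2.1 = mis (lp e0.2) XU := by rw [← hφ]; rfl
      rw [h9]
      refine le_trans ?_ h8.le
      refine Finset.card_le_card_of_injOn Prod.snd ?_ ?_
      · intro e he
        rw [Finset.mem_coe, Finset.mem_filter, hE1, Finset.mem_filter, Finset.mem_filter,
          Finset.mem_product] at he
        obtain ⟨⟨⟨⟨g1, g2⟩, s', hs', x', hx', hxU', hp', hpB', hR', hsx'⟩, gB'⟩, gφ⟩ := he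
        obtain ⟨g3, g4, g5, g6⟩ := new_edge H F hc hs' hx' hxU' hp' hpB' hR'
        rw [Finset.mem_coe, Str.mem_pts]
        refine ⟨g2, ?_⟩
        have e1 : φ e = φ e0 := gφ.trans hφ.symm
        have e2 : tm τ (pre (mis (lp e.2) XU) (lp e.2)) = tm τ (pre (mis (lp e0.2) XU) (lp e0.2)) :=
          (Prod.ext_iff.1 e1).2
        have e3 : (pre (mis (lp e.2) XU) (lp e.2)).1 = (pre (mis (lp e0.2) XU) (lp e0.2)).1 :=
          (Prod.ext_iff.1 e2).1
        have e4 : (pre (mis (lp e.2) XU) (lp e.2)).2 = (pre (mis (lp e0.2) XU) (lp e0.2)).2 :=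
          map_inj_on (cfg_τinj H) _ _ (fun y hy => cfg_QP H (g4 y hy))
            (fun y hy => cfg_QP H (h4 y hy)) (Prod.ext_iff.1 e2).2
        rw [← Prod.ext e3 e4]
        exact g5
      · intro e he e' he' hee
        rw [Finset.mem_coe, Finset.mem_filter] at he he'
        have e1 : φ e = φ e' := he.2.trans he'.2.symm
        exact Prod.ext (Prod.ext_iff.1 e1).1 hee
  have h1 : ((E1.filter (fun e => φ e = c)).card : ℝ) ≤ N c.2.1 := by exact_mod_cast hcard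
  have h2 := Nw_small c.2.1
  have h3 := w_pos c.2.1
  nlinarith [mul_le_mul_of_nonneg_right h1 h3.le]

/-- the pairs of `A` which become new edges -/
noncomputable def K1 (M : Str ℕ) (U B A : Finset ℕ) : Finset (ℕ × ℕ) :=
  ((A ∩ U) ×ˢ (A ∩ B)).filter fun e => e.1 ∉ B ∧ e.2 ∉ U ∧ M.R e.1 e.2

theorem mem_K1 {e : ℕ × ℕ} : e ∈ K1 M U B A ↔
    e.1 ∈ A ∩ U ∧ e.2 ∈ A ∩ B ∧ e.1 ∉ B ∧ e.2 ∉ U ∧ M.R e.1 e.2 := by
  unfold K1; rw [Finset.mem_filter, Finset.mem_product, and_assoc]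

theorem sum_E2 (H : Cfg M Ω b0 h T U Q B A P W D σ τ lp) {t : ℕ} (ht : t ∈ T)
    (hD : (A ∩ B).image (σ t) ⊆ XD) (hU : A ∩ U ⊆ XU) :
    ∑ e ∈ ((XD ×ˢ XU).filter (fun e => nE M T U B A σ e.1 e.2)).filter
      (fun e => e.1 ∈ B.image (σ t)), w (mis (lp e.2) XU) =
    ∑ e ∈ K1 M U B A, w (mis (lp e.1) XU) := by
  have himg : ((XD ×ˢ XU).filter (fun e => nE M T U B A σ e.1 e.2)).filter
      (fun e => e.1 ∈ B.image (σ t)) = (K1 M U B A).image (fun e => (σ t e.2, e.1)) := by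
    ext e
    rw [Finset.mem_filter, Finset.mem_filter, Finset.mem_product]
    constructor
    · rintro ⟨⟨⟨h1, h2⟩, s, hs, x, hx, hxU, hp, hpB, hR, hsx⟩, hB'⟩
      obtain ⟨x', hx', hxe⟩ := Finset.mem_image.1 hB'
      have hxB : x ∈ B := (Finset.mem_inter.1 hx).2
      have hxx : x = x' := by
        by_cases hst : s = t
        · subst hst
          exact (H.emb s hs).inj x (H.BW hxB) x' (H.BW hx') (hsx.trans hxe.symm)
        · exact H.sep s hs t ht hst x hxB x' hx' (hsx.trans hxe.symm)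
      subst hxx
      exact Finset.mem_image.2 ⟨(e.2, x), mem_K1.2 ⟨hp, hx, hpB, hxU, hR⟩, Prod.ext hxe rfl⟩
    · intro hmem
      obtain ⟨⟨p, x⟩, hK, rfl⟩ := Finset.mem_image.1 hmem
      obtain ⟨h1, h2, h3, h4, h5⟩ := mem_K1.1 hK
      simp only at h1 h2 h3 h4 h5
      exact ⟨⟨⟨hD (Finset.mem_image_of_mem _ h2), hU h1⟩, t, ht, x, h2, h4, h1, h3, h5, rfl⟩,
        Finset.mem_image_of_mem _ (Finset.mem_inter.1 h2).2⟩
  rw [himg, Finset.sum_image]
  rintro ⟨p, x⟩ hK ⟨p', x'⟩ hK' hee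
  obtain ⟨h1, h2, h3, h4, h5⟩ := mem_K1.1 hK
  obtain ⟨h1', h2', h3', h4', h5'⟩ := mem_K1.1 hK'
  simp only [Prod.mk.injEq] at hee h2 h2'
  have := (H.emb t ht).inj x (H.BW (Finset.mem_inter.1 h2).2) x'
    (H.BW (Finset.mem_inter.1 h2').2) hee.1
  rw [this, hee.2]

end

theorem GAMMA (SE : S_EMB) (SM : S_SMK) (SH : S_HULL) (SR : S_REL) (SC : S_CM) (SCL : S_CLO) :
    S_GAMMA := by
  intro M Ω b0 h T U Q B A P W D σ τ lp H XD XU F hc t ht hD hU
  have hΩ : M.Amb Ω := H.rich.amb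
  have hQU := cfg_QU H
  have hQB := cfg_QB H
  have hQP := cfg_QP H
  -- `B'` is closed
  have hBW : M.Cl B ↑W := H.cB.down H.BW H.cW.1
  have hB' : M.Cl (B.image (σ t)) Ω :=
    SCL.trans hΩ ((SE.cl (H.emb t ht) H.BW).2 hBW) (H.img t ht)
  -- the set `X2`
  set X2 := B.filter (fun x => σ t x ∈ XD) with hX2
  have hX2B : X2 ⊆ B := Finset.filter_subset _ _
  have hX2W : X2 ⊆ W := hX2B.trans H.BW
  have himg : X2.image (σ t) = XD ∩ B.image (σ t) := by
    ext y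
    rw [Finset.mem_image, Finset.mem_inter, Finset.mem_image]
    constructor
    · rintro ⟨x, hx, rfl⟩
      rw [hX2, Finset.mem_filter] at hx
      exact ⟨hx.2, x, hx.1, rfl⟩
    · rintro ⟨h1, x, hx, rfl⟩
      exact ⟨x, Finset.mem_filter.2 ⟨hx, h1⟩, rfl⟩
  have hpc' : M.PC (X2.image (σ t)) Ω := by rw [himg]; exact F.pD.inter hB'.1
  have hpc : M.PC X2 Ω := by
    have h1 : M.PC (X2.image (σ t)) ↑(W.image (σ t)) :=
      hpc'.mono (H.img t ht).sub (Finset.coe_subset.2 (Finset.image_subset_image hX2W))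
    exact ((SE.pc (H.emb t ht) hX2W).1 h1).trans H.cW.1
  have hdl : M.dl (XD ∩ B.image (σ t)) = M.dl X2 := by
    rw [← himg]; exact SE.dl (H.emb t ht) hX2W
  have hXQ : X2 ∩ XU = XU ∩ Q := by
    ext x
    rw [Finset.mem_inter, Finset.mem_inter, hX2, Finset.mem_filter]
    constructor
    · rintro ⟨⟨h1, h2⟩, h3⟩
      refine ⟨h3, ?_⟩
      rw [← H.UB]
      exact Finset.mem_inter.2 ⟨F.sU h3, h1⟩
    · rintro ⟨h1, h2⟩
      refine ⟨⟨hQB h2, ?_⟩, h1⟩
      rw [cfg_σQ H ht h2]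
      exact (F.fit x h2).1 h1
  have hAX2 : A ∩ B ⊆ X2 := by
    intro x hx
    rw [hX2, Finset.mem_filter]
    exact ⟨(Finset.mem_inter.1 hx).2, hD (Finset.mem_image_of_mem _ hx)⟩
  have hAsub : A ⊆ X2 ∪ XU := by
    intro x hx
    rcases Finset.mem_union.1 (H.AUB hx) with h1 | h1
    · exact Finset.mem_union_right _ (hU (Finset.mem_inter.2 ⟨hx, h1⟩))
    · exact Finset.mem_union_left _ (hAX2 (Finset.mem_inter.2 ⟨hx, h1⟩))
  have hAeq : A = (A ∩ U) ∪ (A ∩ B) := by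
    rw [← Finset.inter_union_distrib_left]
    exact (Finset.inter_eq_left.2 H.AUB).symm
  -- the pairs
  set 𝒦 := K1 M U B A ∪ (K1 M U B A).image Prod.swap with h𝒦
  have hdisj : Disjoint (K1 M U B A) ((K1 M U B A).image Prod.swap) := by
    rw [Finset.disjoint_left]
    intro e he he'
    obtain ⟨e', he2, rfl⟩ := Finset.mem_image.1 he'
    exact (mem_K1.1 he).2.2.1 (Finset.mem_inter.1 (mem_K1.1 he2).2.1).2
  have hswap : ∀ e ∈ 𝒦, e.swap ∈ 𝒦 := by
    intro e he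
    rcases Finset.mem_union.1 he with h1 | h1
    · exact Finset.mem_union_right _ (Finset.mem_image_of_mem _ h1)
    · obtain ⟨e', he', rfl⟩ := Finset.mem_image.1 h1
      rw [Prod.swap_swap]
      exact Finset.mem_union_left _ he'
  have h𝒦A : ∀ e ∈ 𝒦, e.1 ∈ A ∧ e.2 ∈ A := by
    intro e he
    rcases Finset.mem_union.1 he with h1 | h1
    · obtain ⟨g1, g2, _⟩ := mem_K1.1 h1
      exact ⟨(Finset.mem_inter.1 g1).1, (Finset.mem_inter.1 g2).1⟩
    · obtain ⟨e', he', rfl⟩ := Finset.mem_image.1 h1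
      obtain ⟨g1, g2, _⟩ := mem_K1.1 he'
      exact ⟨(Finset.mem_inter.1 g2).1, (Finset.mem_inter.1 g1).1⟩
  have hned : 𝒦 ⊆ M.ned X2 XU := by
    intro e he
    unfold Str.ned
    rw [Finset.mem_filter, Str.mem_ed, Str.mem_ed, Str.mem_ed]
    rcases Finset.mem_union.1 he with h1 | h1
    · obtain ⟨g1, g2, g3, g4, g5⟩ := mem_K1.1 h1
      exact ⟨⟨Finset.mem_union_right _ (hU g1), Finset.mem_union_left _ (hAX2 g2), g5⟩,
        fun hcon => g3 (hX2B hcon.1), fun hcon => g4 (F.sU hcon.2.1)⟩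
    · obtain ⟨e', he', rfl⟩ := Finset.mem_image.1 h1
      obtain ⟨g1, g2, g3, g4, g5⟩ := mem_K1.1 he'
      exact ⟨⟨Finset.mem_union_left _ (hAX2 g2), Finset.mem_union_right _ (hU g1), g5.symm⟩,
        fun hcon => g3 (hX2B hcon.2.1), fun hcon => g4 (F.sU hcon.1)⟩
  have hpartner : ∀ p l, (p, l) ∈ M.nic X2 XU →
      (𝒦.filter fun e => e.1 = p ∧ M.On e.2 l).card ≤ N l.1 := by
    intro p l hpl
    unfold Str.nic at hpl
    rw [Finset.mem_filter, Str.mem_ic] at hpl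
    obtain ⟨⟨g1, g2, g3⟩, g4, g5⟩ := hpl
    simp only at g1 g2 g3
    by_cases hlA : ∃ x ∈ l.2, x ∉ A
    · have hlΩ : ∀ x ∈ l.2, x ∈ Ω := by
        intro x hx
        rcases Finset.mem_union.1 ((mem_lin.1 g2).2.2 x hx) with h1 | h1
        · exact hpc.sub (Finset.mem_coe.2 h1)
        · exact F.pU.sub (Finset.mem_coe.2 h1)
      refine le_trans ?_ (H.cA.1.pts_lt hlΩ hlA).le
      refine Finset.card_le_card_of_injOn Prod.snd ?_ ?_
      · intro e he
        rw [Finset.mem_coe, Finset.mem_filter] at he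
        rw [Finset.mem_coe, Str.mem_pts]
        exact ⟨(h𝒦A e he.1).2, he.2.2⟩
      · intro e he e' he' hee
        rw [Finset.mem_coe, Finset.mem_filter] at he he'
        exact Prod.ext (he.2.1.trans he'.2.1.symm) hee
    · push Not at hlA
      have hemp : (𝒦.filter fun e => e.1 = p ∧ M.On e.2 l) = ∅ := by
        rw [Finset.filter_eq_empty_iff]
        rintro e he ⟨rfl, he2⟩
        have hlin : l ∈ lin A := mem_lin.2 ⟨(mem_lin.1 g2).1, (mem_lin.1 g2).2.1, hlA⟩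
        have hic : (e.1, l) ∈ M.ic A := Str.mem_ic.2 ⟨(h𝒦A e he).1, hlin, g3⟩
        by_cases hc1 : (e.1, l) ∈ M.ic (A ∩ U)
        · obtain ⟨k1, k2, k3⟩ := Str.mem_ic.1 hc1
          exact g5 (Str.mem_ic.2 ⟨hU k1, lin_mono hU k2, k3⟩)
        · by_cases hc2 : (e.1, l) ∈ M.ic (A ∩ B)
          · obtain ⟨k1, k2, k3⟩ := Str.mem_ic.1 hc2
            exact g4 (Str.mem_ic.2 ⟨hAX2 k1, lin_mono hAX2 k2, k3⟩)
          · have : (e.1, l) ∈ M.nic (A ∩ U) (A ∩ B) := by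
              unfold Str.nic
              rw [Finset.mem_filter, ← hAeq]
              exact ⟨hic, hc1, hc2⟩
            rw [H.noinc] at this
            simp at this
      rw [hemp]
      simp
  have hsmk := SM 𝒦 H.rich.k.c1 hpc F.pU hned hswap hpartner
  -- the cost of the edges in `𝒦`
  have hK : ∑ e ∈ 𝒦, (w 0 - M.cm (X2 ∩ XU) e) = 2 * ∑ e ∈ K1 M U B A, w (mis (lp e.1) XU) := by
    rw [h𝒦, Finset.sum_union hdisj, Finset.sum_image (by
      intro e _ e' _ hee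
      exact Prod.swap_injective hee), two_mul, hXQ]
    congr 1
    · refine Finset.sum_congr rfl fun e he => ?_
      obtain ⟨g1, g2, g3, g4, g5⟩ := mem_K1.1 he
      exact (SC H XU F.sU e.1 g1 g3 e.2 g2 g4 g5).2.1
    · refine Finset.sum_congr rfl fun e he => ?_
      obtain ⟨g1, g2, g3, g4, g5⟩ := mem_K1.1 he
      exact (SC H XU F.sU e.1 g1 g3 e.2 g2 g4 g5).2.2
  have hlv : 0 ≤ ∑ e ∈ M.ned X2 XU \ 𝒦, (w 0 - ∑ j ∈ M.lv X2 XU e, q (j + 1)) :=
    Finset.sum_nonneg fun e _ => by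
      have := w_levels' (M.lv X2 XU e)
      linarith
  have hnic0 : 0 ≤ (∑ p ∈ M.nic X2 XU, a p.2.1) / 2 :=
    div_nonneg (Finset.sum_nonneg fun p _ => (a_pos _).le) (by norm_num)
  -- cost
  have hcost : cost M T U B A σ lp XD XU =
      2 * (∑ e ∈ ((XD ×ˢ XU).filter (fun e => nE M T U B A σ e.1 e.2)).filter
        (fun e => e.1 ∉ B.image (σ t)), w (mis (lp e.2) XU)) +
      2 * ∑ e ∈ K1 M U B A, w (mis (lp e.1) XU) := by
    unfold cost
    rw [← sum_E2 H ht hD hU, ← mul_add, add_comm,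
      Finset.sum_filter_add_sum_filter_not]
  have hc1 := cost1 H F hc ht
  obtain ⟨hrel, hrel'⟩ := SR hΩ F.pD hB'
  have hnic1 : 0 ≤ ∑ p ∈ M.nic XD (B.image (σ t)), a p.2.1 :=
    Finset.sum_nonneg fun p _ => (a_pos _).le
  -- the hull
  obtain ⟨C, hSC, hC⟩ := hΩ.fin (X2 ∪ XU) (by
    intro x hx
    rcases Finset.mem_union.1 (Finset.mem_coe.1 hx) with h1 | h1
    · exact hpc.sub (Finset.mem_coe.2 h1)
    · exact F.pU.sub (Finset.mem_coe.2 h1))
  obtain ⟨X, hX, hXX, -, -⟩ := SH.hull hΩ.c1 hC.1 hSC (by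
    rintro l hl ⟨x, hx, hxn⟩
    rw [Finset.mem_union, not_or] at hxn
    rw [Str.pts_union]
    have g1 := hpc.pts_lt hl ⟨x, hx, hxn.1⟩
    have g2 := F.pU.pts_lt hl ⟨x, hx, hxn.2⟩
    have g3 := Finset.card_union_le (M.pts l X2) (M.pts l XU)
    omega)
  have hAX : A ⊆ X := hAsub.trans hX.2.1
  have hle1 : M.dl A ≤ M.dl X := H.cA.le hX.1 hAX
  have hle2 : M.dl X ≤ M.dl (X2 ∪ XU) := by
    rcases hXX with h1 | h1
    · rw [h1]
    · exact h1.le
  have hle3 : X2 ∪ XU ≠ A → M.dl A < M.dl (X2 ∪ XU) := by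
    intro hne
    rcases hXX with h1 | h1
    · rw [← h1]
      refine H.cA.2 X hX.1 (Finset.ssubset_iff_subset_ne.2 ⟨hAX, fun hh => hne ?_⟩)
      rw [← h1, hh]
    · exact lt_of_le_of_lt hle1 h1
  rw [hK, hXQ] at hsmk
  have hmain : M.dl (X2 ∪ XU) + (∑ p ∈ M.nic XD (B.image (σ t)), a p.2.1) * (3 / 8) +
      (M.dl XD - M.dl (XD ∩ B.image (σ t)) - (∑ p ∈ M.nic XD (B.image (σ t)), a p.2.1) / 2) ≤
      M.dl XD + M.dl XU - M.dl (XU ∩ Q) - cost M T U B A σ lp XD XU := by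
    rw [hcost]
    linarith
  constructor
  · linarith
  · intro hne
    by_cases h1 : XD ⊆ B.image (σ t)
    · have h2 : X2 ∪ XU ≠ A := by
        intro h2
        apply hne
        have e1 : XU = A ∩ U := by
          refine Finset.Subset.antisymm ?_ hU
          intro x hx
          refine Finset.mem_inter.2 ⟨?_, F.sU hx⟩
          rw [← h2]; exact Finset.mem_union_right _ hx
        have e2 : X2 = A ∩ B := by
          refine Finset.Subset.antisymm ?_ hAX2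
          intro x hx
          refine Finset.mem_inter.2 ⟨?_, hX2B hx⟩
          rw [← h2]; exact Finset.mem_union_left _ hx
        refine ⟨?_, e1⟩
        rw [← e2, himg]
        exact (Finset.inter_eq_left.2 h1).symm
      have h3 := hle3 h2
      linarith
    · have h2 := hrel' h1
      linarith

end Run7.h540.LW
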